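import Pool.Agent.P8H73.KV.Stm

/-!
Project KV, part FORM: the weights of Selberg at the multiples of a prime in `(P0, P1]`.
-/

set_option autoImplicit false

namespace Pool.Agent.P8H78.KV

open Finset Pool.Agent.H376R2.MR Pool.Agent.H376R2.TT Pool.Agent.Y844.BT Pool.Agent.P8H73.GM Pool.Agent.P8H73.KV

theorem psi_mul (k : ℕ) {a b : ℕ} (h : Nat.Coprime a b) : psi k (a * b) = psi k a * psi k b := by
  unfold psi
  rw [selwq_g_mul k h, ArithmeticFunction.isMultiplicative_moebius.map_mul_of_coprime h]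
  push_cast
  ring

theorem selwq_g_not_coprime (k : ℕ) {a b : ℕ} (h : ¬ Nat.Coprime a b) : selwq_g k (a * b) = 0 := by
  apply selwq_g_zero
  intro hs
  exact h (sw_coprime hs)

/-- the sum over the members of the set which are multiples of `d` -/
theorem SS_mult (k d p : ℕ) (R Y P0 P1 : ℝ) (hd : 1 ≤ d) (hp : p.Prime) (hP0 : P0 < (p : ℝ)) (hP1 : (p : ℝ) ≤ P1)
    (hpd : p ∣ d) :
    ∑ m ∈ (SS k R Y P0 P1).filter (fun m => d ∣ m), sw_g m =
      ∑ e ∈ Icc 1 ⌊R⌋₊, selwq_g k (d * e) * (if d * e ≤ ⌊R⌋₊ then 1 else 0) := by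
  have h1 : ∑ e ∈ Icc 1 ⌊R⌋₊, selwq_g k (d * e) * (if d * e ≤ ⌊R⌋₊ then (1 : ℝ) else 0) =
      ∑ m ∈ (Icc 1 ⌊R⌋₊).image (fun e => d * e), selwq_g k m * (if m ≤ ⌊R⌋₊ then (1 : ℝ) else 0) := by
    rw [sum_image]
    intro a _ b _ hab
    exact Nat.eq_of_mul_eq_mul_left hd hab
  have h2 : ∑ m ∈ (SS k R Y P0 P1).filter (fun m => d ∣ m), sw_g m =
      ∑ m ∈ (SS k R Y P0 P1).filter (fun m => d ∣ m), selwq_g k m * (if m ≤ ⌊R⌋₊ then (1 : ℝ) else 0) := by
    apply sum_congr rfl
    intro m hm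
    simp only [SS, mem_filter, mem_Icc] at hm
    rw [if_pos hm.1.1.2, mul_one]
    unfold selwq_g
    rw [if_pos hm.1.2.2.1]
  rw [h1, h2]
  apply sum_subset
  · intro m hm
    simp only [SS, mem_filter, mem_Icc] at hm
    obtain ⟨⟨⟨hm1, hm2⟩, -⟩, c, rfl⟩ := hm
    rw [mem_image]
    refine ⟨c, ?_, rfl⟩
    rw [mem_Icc]
    constructor
    · rcases Nat.eq_zero_or_pos c with h0 | h0
      · rw [h0, mul_zero] at hm1
        omega
      · exact h0
    · exact (Nat.le_mul_of_pos_left c hd).trans hm2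
  · intro m hm hm2
    rw [mem_image] at hm
    obtain ⟨e, he, rfl⟩ := hm
    rw [mem_Icc] at he
    by_cases hR : d * e ≤ ⌊R⌋₊
    · rw [if_pos hR, mul_one]
      by_contra hne
      apply hm2
      simp only [SS, mem_filter, mem_Icc]
      have hsq : Squarefree (d * e) := by
        by_contra hs
        exact hne (selwq_g_zero hs)
      have hco : Nat.Coprime (d * e) k := by
        by_contra hs
        apply hne
        unfold selwq_g
        rw [if_neg hs]
      exact ⟨⟨⟨Nat.mul_pos hd he.1, hR⟩, hsq, hco, Or.inr ⟨p, hp, hP0, hP1, hpd.mul_right e⟩⟩, Nat.dvd_mul_right d e⟩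
    · rw [if_neg hR, mul_zero]

theorem form : S_FORM := by
  intro k g p n R Y P0 P1 hk hR hg hn hp hP0 hP1 hpg hpn
  have hp1 : 1 ≤ p := hp.one_lt.le
  have hcpn : Nat.Coprime p n := (Nat.Prime.coprime_iff_not_dvd hp).2 hpn
  have hcpg : Nat.Coprime p g := (Nat.Prime.coprime_iff_not_dvd hp).2 hpg
  have hd : 1 ≤ g * (p * n) := Nat.mul_pos hg (Nat.mul_pos hp1 hn)
  unfold Pool.Agent.P8H73.KV.lam
  congr 1
  rw [SS_mult k (g * (p * n)) p R Y P0 P1 hd hp hP0 hP1 ((Nat.dvd_mul_right p n).trans (Nat.dvd_mul_left (p * n) g)),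
    mul_sum]
  apply sum_congr rfl
  intro e he
  rw [mem_Icc] at he
  have hiff : (g * (p * n) * e ≤ ⌊R⌋₊) ↔ p ≤ ⌊R / (g * n * e)⌋₊ := by
    rw [Nat.le_floor_iff (by linarith), Nat.le_floor_iff (by positivity)]
    have hpos : (0 : ℝ) < g * n * e := by
      have h1 : (0 : ℝ) < g := by exact_mod_cast hg
      have h2 : (0 : ℝ) < n := by exact_mod_cast hn
      have h3 : (0 : ℝ) < e := by exact_mod_cast he.1
      positivity
    rw [le_div_iff₀ hpos]
    push_cast
    have : (g : ℝ) * (p * n) * e = p * (g * n * e) := by ring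
    rw [this]
  by_cases hng : Nat.Coprime n g
  · have hpsi : psi k (g * (p * n)) = psi k g * psi k p * psi k n := by
      rw [psi_mul k (Nat.Coprime.mul_right hcpg.symm hng.symm), psi_mul k hcpn]
      ring
    by_cases hc : Nat.Coprime (g * (p * n)) e
    · have h1 : Nat.Coprime g e := Nat.Coprime.coprime_mul_right hc
      have h2 : Nat.Coprime (p * n) e := Nat.Coprime.coprime_mul_left hc
      have h3 : Nat.Coprime p e := Nat.Coprime.coprime_mul_right h2
      have h4 : Nat.Coprime n e := Nat.Coprime.coprime_mul_left h2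
      rw [selwq_g_mul k hc, if_pos h1, if_pos h3, if_pos (Nat.Coprime.mul_right hng h4)]
      have h5 : ((ArithmeticFunction.moebius (g * (p * n)) : ℤ) : ℝ) * ((g * (p * n) : ℕ) : ℝ) * selwq_g k (g * (p * n)) =
        psi k g * psi k p * psi k n := by
        rw [← hpsi]
        unfold psi
        rfl
      by_cases h6 : g * (p * n) * e ≤ ⌊R⌋₊
      · rw [if_pos h6, if_pos (hiff.1 h6)]
        linear_combination (selwq_g k e) * h5
      · rw [if_neg h6, if_neg (fun h => h6 (hiff.2 h))]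
        ring
    · rw [selwq_g_not_coprime k hc, zero_mul, mul_zero]
      symm
      by_cases h1 : Nat.Coprime g e
      · by_cases h3 : Nat.Coprime p e
        · have h4 : ¬ Nat.Coprime n (g * e) := by
            intro h5
            exact hc (Nat.Coprime.mul_left h1 (Nat.Coprime.mul_left h3 (Nat.Coprime.coprime_mul_left_right h5)))
          rw [if_neg h4]
          ring
        · rw [if_neg h3]
          ring
      · rw [if_neg h1]
        ring
  · have h1 : selwq_g k (g * (p * n) * e) = 0 := by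
      apply selwq_g_zero
      intro hs
      have h2 := sw_coprime (Squarefree.of_mul_left hs)
      exact hng (Nat.Coprime.coprime_mul_left_right h2).symm
    have h4 : ¬ Nat.Coprime n (g * e) := by
      intro h5
      exact hng (Nat.Coprime.coprime_mul_right_right h5)
    rw [h1, if_neg h4]
    ring

end Pool.Agent.P8H78.KV
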