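import Pool.Agent.P8H73.KV.Stm

/-!
Project KV, part SPL: the marked prime factor.
-/

set_option autoImplicit false

namespace Pool.Agent.P8H78.KV

open Finset Pool.Agent.H376R2.TT Pool.Agent.Y844.BT Pool.Agent.P8H73.GM Pool.Agent.P8H73.KV
open Pool.Agent.H376R2.MR hiding lam Wt

theorem Wt_le_one (L Δ n : ℕ) (hΔ : 1 ≤ Δ) : Wt L Δ n ≤ 1 := by
  unfold Wt
  have hΔ0 : (0 : ℝ) < Δ := by exact_mod_cast hΔ
  rw [div_le_one hΔ0]
  have h : 2 * Δ + L - n ≤ (Δ + L - n) + Δ := by omega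
  have h' : ((2 * Δ + L - n : ℕ) : ℝ) ≤ ((Δ + L - n : ℕ) : ℝ) + Δ := by exact_mod_cast h
  have h2 : (0 : ℝ) ≤ ((Δ - n : ℕ) : ℝ) := Nat.cast_nonneg _
  linarith

/-- trivial bound of the discrepancy for all `q` prime to `k` -/
theorem RR_bd (k : ℕ) (l c : ℤ) (L Δ q : ℕ) (hk : 1 ≤ k) (hΔ : 1 ≤ Δ) (hq1 : 1 ≤ q) (hq : Nat.Coprime q k) :
    |RR k l c L Δ q| ≤ L / Δ + 4 := by
  have : NeZero k := ⟨by omega⟩
  have hΔ0 : (0 : ℝ) < Δ := by exact_mod_cast hΔ
  have hL0 : (0 : ℝ) ≤ (L : ℝ) / Δ := by positivity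
  by_cases h : q ≤ 2 * Δ + L
  · refine (RR_triv k l c L Δ q hΔ hq1 hq).trans ?_
    rw [div_le_iff₀ hΔ0]
    have h' : (q : ℝ) ≤ 2 * Δ + L := by exact_mod_cast h
    have : ((L : ℝ) / Δ + 4) * Δ = L + 4 * Δ := by field_simp
    rw [this]
    linarith
  · push Not at h
    have hq0 : (0 : ℝ) < q := by exact_mod_cast hq1
    have h1 : (0 : ℝ) ≤ (Δ + L) / q := by positivity
    have h2 : ((Δ : ℝ) + L) / q ≤ 1 := by
      rw [div_le_one hq0]
      have : (2 * Δ + L : ℝ) < q := by exact_mod_cast h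
      linarith
    have h3 : 0 ≤ ∑ n ∈ range (2 * Δ + L), Wt L Δ n * (if (q : ℤ) ∣ k * (c + n) + l then (1 : ℝ) else 0) := by
      apply sum_nonneg
      intro n _
      apply mul_nonneg (Wt_nonneg L Δ n)
      split_ifs <;> norm_num
    have h4 : ∑ n ∈ range (2 * Δ + L), Wt L Δ n * (if (q : ℤ) ∣ k * (c + n) + l then (1 : ℝ) else 0) ≤ 1 := by
      calc _ ≤ ∑ n ∈ range (2 * Δ + L), (if (q : ℤ) ∣ k * (c + n) + l then (1 : ℝ) else 0) := by
            apply sum_le_sum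
            intro n _
            split_ifs
            · rw [mul_one]
              exact Wt_le_one L Δ n hΔ
            · rw [mul_zero]
        _ = (((range (2 * Δ + L)).filter (fun n : ℕ => (q : ℤ) ∣ k * (c + n) + l)).card : ℝ) := by
            rw [← sum_filter, sum_const, nsmul_eq_mul, mul_one]
        _ ≤ 1 := by
            have : ((range (2 * Δ + L)).filter (fun n : ℕ => (q : ℤ) ∣ k * (c + n) + l)).card ≤ 1 := by
              rw [card_le_one]
              intro a ha b hb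
              rw [mem_filter, mem_range] at ha hb
              have h5 : (q : ℤ) ∣ k * ((a : ℤ) - b) := by
                have := dvd_sub ha.2 hb.2
                have e : (k : ℤ) * (c + a) + l - (k * (c + b) + l) = k * ((a : ℤ) - b) := by ring
                rwa [e] at this
              have h6 : (q : ℤ) ∣ (a : ℤ) - b := by
                apply IsCoprime.dvd_of_dvd_mul_left _ h5
                exact Nat.isCoprime_iff_coprime.2 hq
              have h7 := Int.eq_zero_of_abs_lt_dvd h6 (by rw [abs_lt]; constructor <;> omega)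
              omega
            exact_mod_cast this
    unfold RR
    rw [abs_le]
    constructor <;> linarith

theorem nu_mul (P0 P1 : ℝ) {p n : ℕ} (hp : p.Prime) (hP0 : P0 < (p : ℝ)) (hP1 : (p : ℝ) ≤ P1) (hn : n ≠ 0)
    (hpn : ¬ p ∣ n) : nu P0 P1 (p * n) = 1 + nu P0 P1 n := by
  classical
  unfold nu
  rw [Nat.primeFactors_mul hp.ne_zero hn, Nat.Prime.primeFactors hp, filter_union, card_union_of_disjoint]
  · congr 1
    rw [card_eq_one]
    refine ⟨p, ?_⟩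
    ext q
    simp only [mem_filter, mem_singleton]
    constructor
    · intro h
      exact h.1
    · rintro rfl
      exact ⟨rfl, hP0, hP1⟩
  · rw [disjoint_left]
    intro q hq hq2
    simp only [mem_filter, mem_singleton] at hq hq2
    apply hpn
    rw [← hq.1]
    exact Nat.dvd_of_mem_primeFactors hq2.1

open Classical in
/-- the sum over the second variable without the marked factor -/
theorem split_one (k : ℕ) (l c : ℤ) (L Δ g m p i : ℕ) (R Y P0 P1 : ℝ)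
    (hA2 : ∀ m ∈ SS k R Y P0 P1, Squarefree m ∧ Nat.Coprime m k ∧ (m : ℝ) ≤ R)
    (hA3 : ∀ m ∈ SS k R Y P0 P1, ∀ d, d ∣ m → d ∈ SS k R Y P0 P1)
    (hlam0 : ∀ d, d ∉ SS k R Y P0 P1 → lam (SS k R Y P0 P1) d = 0) (hp : p.Prime) (hP0 : P0 < (p : ℝ))
    (hP1 : (p : ℝ) ≤ P1) (hi : 2 ^ i ≤ p) :
    ∑ n ∈ (Icc 1 ⌊R⌋₊).filter (fun n : ℕ => Y < 2 ^ i * (n : ℝ)),
        (if Nat.Coprime m p ∧ Nat.Coprime (m * p) n then 1 else 0) *
          (lam (SS k R Y P0 P1) (g * m) * (lam (SS k R Y P0 P1) (g * (p * n)) / (1 + nu P0 P1 n)) *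
            RR k l c L Δ (g * (m * p * n))) =
      ∑ n₁ ∈ (SS k R Y P0 P1).filter (fun n : ℕ => Y < (n : ℝ)),
        (if p ∣ n₁ ∧ Y < 2 ^ i * ((n₁ / p : ℕ) : ℝ) then
          (if Nat.Coprime m n₁ then 1 else 0) * (lam (SS k R Y P0 P1) (g * m) * lam (SS k R Y P0 P1) (g * n₁) *
            RR k l c L Δ (g * (m * n₁))) / nu P0 P1 n₁ else 0) := by
  have hp0 : 0 < p := hp.pos
  have hval : ∀ n : ℕ, p * n ∈ SS k R Y P0 P1 → Y < 2 ^ i * (n : ℝ) →
      (if Nat.Coprime m p ∧ Nat.Coprime (m * p) n then 1 else 0) *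
          (lam (SS k R Y P0 P1) (g * m) * (lam (SS k R Y P0 P1) (g * (p * n)) / (1 + nu P0 P1 n)) *
            RR k l c L Δ (g * (m * p * n))) =
        (if p ∣ p * n ∧ Y < 2 ^ i * ((p * n / p : ℕ) : ℝ) then
          (if Nat.Coprime m (p * n) then 1 else 0) * (lam (SS k R Y P0 P1) (g * m) * lam (SS k R Y P0 P1) (g * (p * n)) *
            RR k l c L Δ (g * (m * (p * n)))) / nu P0 P1 (p * n) else 0) := by
    intro n hn hY
    have hsq := (hA2 _ hn).1
    have hcop : Nat.Coprime p n := sw_coprime hsq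
    have hn0 : n ≠ 0 := by
      rintro rfl
      rw [mul_zero] at hsq
      exact hsq.ne_zero rfl
    have hpn : ¬ p ∣ n := (Nat.Prime.coprime_iff_not_dvd hp).1 hcop
    have hc1 : p ∣ p * n ∧ Y < 2 ^ i * (n : ℝ) := ⟨Nat.dvd_mul_right p n, hY⟩
    rw [Nat.mul_div_cancel_left n hp0, if_pos hc1, nu_mul P0 P1 hp hP0 hP1 hn0 hpn, mul_assoc m p n]
    by_cases hc : Nat.Coprime m (p * n)
    · have h1 : Nat.Coprime m p := Nat.Coprime.coprime_mul_right_right hc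
      have h2 : Nat.Coprime m n := Nat.Coprime.coprime_mul_left_right hc
      have h3 : Nat.Coprime m p ∧ Nat.Coprime (m * p) n := ⟨h1, Nat.Coprime.mul_left h2 hcop⟩
      rw [if_pos hc, if_pos h3]
      push_cast
      ring
    · have : ¬ (Nat.Coprime m p ∧ Nat.Coprime (m * p) n) := by
        rintro ⟨h1, h2⟩
        exact hc (Nat.Coprime.mul_right h1 (Nat.Coprime.coprime_mul_right h2))
      rw [if_neg hc, if_neg this]
      ring
  have hmem : ∀ n : ℕ, (if Nat.Coprime m p ∧ Nat.Coprime (m * p) n then (1 : ℝ) else 0) *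
          (lam (SS k R Y P0 P1) (g * m) * (lam (SS k R Y P0 P1) (g * (p * n)) / (1 + nu P0 P1 n)) *
            RR k l c L Δ (g * (m * p * n))) ≠ 0 → p * n ∈ SS k R Y P0 P1 := by
    intro n hne
    have h1 : lam (SS k R Y P0 P1) (g * (p * n)) ≠ 0 := by
      intro h0
      apply hne
      rw [h0]
      ring
    have h2 : g * (p * n) ∈ SS k R Y P0 P1 := by
      by_contra h3
      exact h1 (hlam0 _ h3)
    exact hA3 _ h2 _ (Nat.dvd_mul_left (p * n) g)
  refine sum_bij_ne_zero (fun n _ _ => p * n) ?_ ?_ ?_ ?_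
  · intro n hn hne
    have h1 := hmem n hne
    rw [mem_filter] at hn ⊢
    refine ⟨h1, hn.2.trans_le ?_⟩
    push_cast
    have h2 : (2 : ℝ) ^ i ≤ p := by exact_mod_cast hi
    exact mul_le_mul_of_nonneg_right h2 (Nat.cast_nonneg n)
  · intro a _ _ b _ _ hab
    exact Nat.eq_of_mul_eq_mul_left hp0 hab
  · intro b hb hne
    have hc : p ∣ b ∧ Y < 2 ^ i * ((b / p : ℕ) : ℝ) := by
      by_contra h
      rw [if_neg h] at hne
      exact hne rfl
    obtain ⟨⟨n, rfl⟩, hY⟩ := hc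
    rw [Nat.mul_div_cancel_left n hp0] at hY
    rw [mem_filter] at hb
    have h1 := hval n hb.1 hY
    have h2 := hA2 _ hb.1
    have hn0 : n ≠ 0 := by
      rintro rfl
      rw [mul_zero] at h2
      exact h2.1.ne_zero rfl
    refine ⟨n, ?_, ?_, rfl⟩
    · rw [mem_filter, mem_Icc]
      refine ⟨⟨Nat.one_le_iff_ne_zero.2 hn0, ?_⟩, hY⟩
      apply Nat.le_floor
      have h3 : (n : ℝ) ≤ ((p * n : ℕ) : ℝ) := by exact_mod_cast Nat.le_mul_of_pos_left n hp0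
      exact h3.trans h2.2.2
    · rw [h1]
      exact hne
  · intro n hn hne
    rw [mem_filter] at hn
    exact hval n (hmem n hne) hn.2

open Classical in
/-- the number of the marked factors -/
theorem cnt_block (P0 P1 Y : ℝ) (K n : ℕ) (hn0 : n ≠ 0) (hK : n < 2 ^ (K + 1)) :
    (∑ i ∈ range (K + 1), ∑ p ∈ (Ico (2 ^ i) (2 ^ (i + 1))).filter (fun p : ℕ => p.Prime ∧ P0 < (p : ℝ) ∧ (p : ℝ) ≤ P1),
      (if p ∣ n ∧ Y < 2 ^ i * ((n / p : ℕ) : ℝ) then (1 : ℝ) else 0)) =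
      ∑ p ∈ n.primeFactors.filter (fun q : ℕ => P0 < (q : ℝ) ∧ (q : ℝ) ≤ P1),
        (if Y < 2 ^ (Nat.log 2 p) * ((n / p : ℕ) : ℝ) then (1 : ℝ) else 0) := by
  have h1 : ∀ i ∈ range (K + 1), ∑ p ∈ (Ico (2 ^ i) (2 ^ (i + 1))).filter (fun p : ℕ => p.Prime ∧ P0 < (p : ℝ) ∧ (p : ℝ) ≤ P1),
      (if p ∣ n ∧ Y < 2 ^ i * ((n / p : ℕ) : ℝ) then (1 : ℝ) else 0) =
      ∑ p ∈ n.primeFactors.filter (fun q : ℕ => P0 < (q : ℝ) ∧ (q : ℝ) ≤ P1),
        (if p ∈ Ico (2 ^ i) (2 ^ (i + 1)) ∧ Y < 2 ^ i * ((n / p : ℕ) : ℝ) then (1 : ℝ) else 0) := by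
    intro i _
    rw [← sum_filter, ← sum_filter]
    apply sum_congr _ (fun _ _ => rfl)
    ext p
    simp only [mem_filter, Nat.mem_primeFactors]
    tauto
  rw [sum_congr rfl h1, sum_comm]
  apply sum_congr rfl
  intro p hp
  rw [mem_filter, Nat.mem_primeFactors] at hp
  have hp0 : p ≠ 0 := hp.1.1.ne_zero
  have hpn : p ≤ n := Nat.le_of_dvd (Nat.pos_of_ne_zero hn0) hp.1.2.1
  have hlog : Nat.log 2 p < K + 1 := Nat.log_lt_of_lt_pow hp0 (hpn.trans_lt hK)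
  rw [sum_eq_single (Nat.log 2 p)]
  · have h2 : p ∈ Ico (2 ^ Nat.log 2 p) (2 ^ (Nat.log 2 p + 1)) := by
      rw [mem_Ico]
      exact ⟨Nat.pow_log_le_self 2 hp0, Nat.lt_pow_succ_log_self (by norm_num) p⟩
    by_cases h3 : Y < 2 ^ Nat.log 2 p * ((n / p : ℕ) : ℝ)
    · rw [if_pos h3, if_pos ⟨h2, h3⟩]
    · rw [if_neg h3, if_neg (fun h => h3 h.2)]
  · intro i _ hi
    rw [if_neg]
    rintro ⟨h2, -⟩
    rw [mem_Ico] at h2
    exact hi (Nat.log_eq_of_pow_le_of_lt_pow h2.1 h2.2).symm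
  · intro h
    exact absurd (mem_range.2 hlog) h

theorem spl (hsel : S_SEL) (hadm : S_ADM) : S_SPL := by
  classical
  intro k l c L Δ g R G0 P0 P1 hk hΔ hG0 hGP hGR hg hgG
  have hG00 : 0 < G0 := by linarith
  have hR0 : 0 < R := by linarith
  have hY1 : 1 ≤ R / G0 := by
    rw [le_div_iff₀ hG00]
    linarith
  have hYR : R / G0 ≤ R := div_le_self hR0.le hG0
  have hA : Adm (SS k R (R / G0) P0 P1) k R := by
    apply hadm k R (R / G0) P0 P1 hk hY1 hYR (by linarith)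
    rw [← mul_div_assoc, le_div_iff₀ hG00, mul_comm]
    exact mul_le_mul_of_nonneg_right hGP hR0.le
  obtain ⟨hA1, hA2, hA3⟩ := hA
  obtain ⟨-, hlam1, hlam0, -⟩ := hsel (SS k R (R / G0) P0 P1) hA1 (fun m hm => (hA2 m hm).1) hA3
  generalize hYdef : R / G0 = Y at *
  have hgR : (0 : ℝ) < g := by exact_mod_cast hg
  set F : ℕ → ℕ → ℝ := fun m n => (if Nat.Coprime m n then 1 else 0) *
    (lam (SS k R Y P0 P1) (g * m) * lam (SS k R Y P0 P1) (g * n) * RR k l c L Δ (g * (m * n))) with hF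
  set S' := (SS k R Y P0 P1).filter (fun n : ℕ => Y < (n : ℝ)) with hS'
  set K := Nat.log 2 ⌊R⌋₊ with hK
  have hEg : Eg k l c L Δ (SS k R Y P0 P1) Y g = ∑ m ∈ S', ∑ n ∈ S', F m n := rfl
  have hMi : ∀ i, Mi k l c L Δ R Y P0 P1 g i = ∑ m ∈ S', ∑ n ∈ S', F m n / nu P0 P1 n *
      (∑ p ∈ (Ico (2 ^ i) (2 ^ (i + 1))).filter (fun p : ℕ => p.Prime ∧ P0 < (p : ℝ) ∧ (p : ℝ) ≤ P1),
        (if p ∣ n ∧ Y < 2 ^ i * ((n / p : ℕ) : ℝ) then (1 : ℝ) else 0)) := by
    intro i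
    unfold Mi
    apply sum_congr rfl
    intro m _
    have h1 : ∀ p ∈ (Ico (2 ^ i) (2 ^ (i + 1))).filter (fun p : ℕ => p.Prime ∧ P0 < (p : ℝ) ∧ (p : ℝ) ≤ P1),
      ∑ n ∈ (Icc 1 ⌊R⌋₊).filter (fun n : ℕ => Y < 2 ^ i * (n : ℝ)),
        (if Nat.Coprime m p ∧ Nat.Coprime (m * p) n then 1 else 0) *
          (lam (SS k R Y P0 P1) (g * m) * (lam (SS k R Y P0 P1) (g * (p * n)) / (1 + nu P0 P1 n)) *
            RR k l c L Δ (g * (m * p * n))) =
      ∑ n ∈ S', F m n / nu P0 P1 n * (if p ∣ n ∧ Y < 2 ^ i * ((n / p : ℕ) : ℝ) then (1 : ℝ) else 0) := by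
      intro p hp
      rw [mem_filter, mem_Ico] at hp
      rw [split_one k l c L Δ g m p i R Y P0 P1 hA2 hA3 hlam0 hp.2.1 hp.2.2.1 hp.2.2.2 hp.1.1]
      apply sum_congr rfl
      intro n _
      by_cases hc : p ∣ n ∧ Y < 2 ^ i * ((n / p : ℕ) : ℝ)
      · rw [if_pos hc, if_pos hc, mul_one]
      · rw [if_neg hc, if_neg hc, mul_zero]
    rw [sum_congr rfl h1, sum_comm]
    apply sum_congr rfl
    intro n _
    rw [mul_sum]
  set cc : ℕ → ℝ := fun n => ∑ p ∈ n.primeFactors.filter (fun q : ℕ => P0 < (q : ℝ) ∧ (q : ℝ) ≤ P1),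
    (if Y < 2 ^ (Nat.log 2 p) * ((n / p : ℕ) : ℝ) then (1 : ℝ) else 0) with hcc
  have hmemS : ∀ n ∈ S', 1 ≤ n ∧ n ≤ ⌊R⌋₊ ∧ Nat.Coprime n k ∧ Y < (n : ℝ) := by
    intro n hn
    rw [hS', mem_filter] at hn
    have h1 := hn.1
    simp only [SS, mem_filter, mem_Icc] at h1
    exact ⟨h1.1.1, h1.1.2, h1.2.2.1, hn.2⟩
  have hsum : ∑ i ∈ range (K + 1), Mi k l c L Δ R Y P0 P1 g i = ∑ m ∈ S', ∑ n ∈ S', F m n / nu P0 P1 n * cc n := by
    rw [sum_congr rfl (fun i _ => hMi i), sum_comm]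
    apply sum_congr rfl
    intro m _
    rw [sum_comm]
    apply sum_congr rfl
    intro n hn
    obtain ⟨hn1, hn2, -, -⟩ := hmemS n hn
    rw [← mul_sum, cnt_block P0 P1 Y K n (by omega) (hn2.trans_lt (Nat.lt_pow_succ_log_self (by norm_num) _))]
  have hnu : ∀ n ∈ S', (1 : ℝ) ≤ nu P0 P1 n := by
    intro n hn
    rw [hS', mem_filter] at hn
    have h1 := hn.1
    simp only [SS, mem_filter, mem_Icc] at h1
    obtain ⟨h2, h3, h4, h5⟩ := h1
    rcases h5 with h5 | ⟨p, hp, hp0, hp1, hpn⟩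
    · exact absurd hn.2 (not_lt.2 h5)
    · have : 1 ≤ nu P0 P1 n := by
        unfold nu
        apply Nat.succ_le_of_lt
        apply card_pos.2
        exact ⟨p, mem_filter.2 ⟨Nat.mem_primeFactors.2 ⟨hp, hpn, by omega⟩, hp0, hp1⟩⟩
      exact_mod_cast this
  have hcc0 : ∀ n, 0 ≤ cc n := by
    intro n
    apply sum_nonneg
    intro p _
    split_ifs <;> norm_num
  have hcc1 : ∀ n, cc n ≤ nu P0 P1 n := by
    intro n
    calc cc n ≤ ∑ p ∈ n.primeFactors.filter (fun q : ℕ => P0 < (q : ℝ) ∧ (q : ℝ) ≤ P1), (1 : ℝ) := by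
          apply sum_le_sum
          intro p _
          split_ifs <;> norm_num
      _ = nu P0 P1 n := by
          rw [sum_const, nsmul_eq_mul, mul_one]
          rfl
  have hcc2 : ∀ n : ℕ, 1 ≤ n → 2 * Y < (n : ℝ) → cc n = nu P0 P1 n := by
    intro n hn1 hn2
    have h1 : cc n = ∑ p ∈ n.primeFactors.filter (fun q : ℕ => P0 < (q : ℝ) ∧ (q : ℝ) ≤ P1), (1 : ℝ) := by
      apply sum_congr rfl
      intro p hp
      rw [if_pos]
      rw [mem_filter, Nat.mem_primeFactors] at hp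
      obtain ⟨⟨hp1, ⟨q, rfl⟩, -⟩, -⟩ := hp
      rw [Nat.mul_div_cancel_left q hp1.pos]
      have h2 : p < 2 ^ (Nat.log 2 p + 1) := Nat.lt_pow_succ_log_self (by norm_num) p
      have h3 : (p : ℝ) < 2 * 2 ^ Nat.log 2 p := by
        have : (p : ℝ) < 2 ^ (Nat.log 2 p + 1) := by exact_mod_cast h2
        rw [pow_succ] at this
        linarith
      have hq : (0 : ℝ) < q := by
        have : 0 < q := by
          rcases Nat.eq_zero_or_pos q with h0 | h0
          · rw [h0, mul_zero] at hn1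
            omega
          · exact h0
        exact_mod_cast this
      push_cast at hn2
      nlinarith [mul_lt_mul_of_pos_right h3 hq]
    rw [h1, sum_const, nsmul_eq_mul, mul_one]
    rfl
  have hB0 : (0 : ℝ) ≤ (L : ℝ) / Δ + 4 := by positivity
  have hF1 : ∀ m ∈ S', ∀ n ∈ S', |F m n| ≤ if (g : ℝ) * m ≤ R then (L : ℝ) / Δ + 4 else 0 := by
    intro m hm n hn
    obtain ⟨hm1, -, hmk, -⟩ := hmemS m hm
    obtain ⟨hn1, -, hnk, -⟩ := hmemS n hn
    by_cases hgm : g * m ∈ SS k R Y P0 P1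
    · obtain ⟨h1, h2, h3⟩ := hA2 _ hgm
      push_cast at h3
      rw [if_pos h3]
      simp only [hF]
      rw [abs_mul, abs_mul, abs_mul]
      have a1 : |(if Nat.Coprime m n then (1 : ℝ) else 0)| ≤ 1 := by split_ifs <;> simp
      have a2 := hlam1 (g * m)
      have a3 := hlam1 (g * n)
      have a4 : |RR k l c L Δ (g * (m * n))| ≤ L / Δ + 4 := by
        apply RR_bd k l c L Δ _ hk hΔ
        · exact Nat.mul_pos hg (Nat.mul_pos hm1 hn1)
        · rw [← mul_assoc]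
          exact Nat.Coprime.mul_left h2 hnk
      calc _ ≤ 1 * (1 * 1 * ((L : ℝ) / Δ + 4)) := by gcongr
        _ = (L : ℝ) / Δ + 4 := by ring
    · simp only [hF]
      rw [hlam0 _ hgm]
      simp only [zero_mul, mul_zero, abs_zero]
      split_ifs
      · exact hB0
      · exact le_rfl
  have hF2 : ∀ m ∈ S', ∀ n ∈ S', |F m n * (1 - cc n / nu P0 P1 n)| ≤
      if (g : ℝ) * m ≤ R ∧ (n : ℝ) ≤ 2 * Y then (L : ℝ) / Δ + 4 else 0 := by
    intro m hm n hn
    have hnu1 := hnu n hn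
    have hnu0 : (0 : ℝ) < nu P0 P1 n := by linarith
    obtain ⟨hn1, -, -, -⟩ := hmemS n hn
    rw [abs_mul]
    by_cases h2 : (n : ℝ) ≤ 2 * Y
    · have h3 : |1 - cc n / nu P0 P1 n| ≤ 1 := by
        rw [abs_le]
        have h4 : cc n / nu P0 P1 n ≤ 1 := by
          rw [div_le_one hnu0]
          exact hcc1 n
        have h5 : 0 ≤ cc n / nu P0 P1 n := div_nonneg (hcc0 n) hnu0.le
        constructor <;> linarith
      have h6 := hF1 m hm n hn
      have h7 : |F m n| * |1 - cc n / nu P0 P1 n| ≤ |F m n| * 1 := mul_le_mul_of_nonneg_left h3 (abs_nonneg _)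
      by_cases h8 : (g : ℝ) * m ≤ R
      · rw [if_pos ⟨h8, h2⟩]
        rw [if_pos h8] at h6
        linarith
      · rw [if_neg (fun h => h8 h.1)]
        rw [if_neg h8] at h6
        linarith
    · rw [if_neg (fun h => h2 h.2), hcc2 n hn1 (not_le.1 h2), div_self hnu0.ne', sub_self, abs_zero, mul_zero]
  have hdiff : Eg k l c L Δ (SS k R Y P0 P1) Y g - ∑ i ∈ range (K + 1), Mi k l c L Δ R Y P0 P1 g i =
      ∑ m ∈ S', ∑ n ∈ S', F m n * (1 - cc n / nu P0 P1 n) := by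
    rw [hEg, hsum, ← sum_sub_distrib]
    apply sum_congr rfl
    intro m _
    rw [← sum_sub_distrib]
    apply sum_congr rfl
    intro n _
    ring
  have hcard : ∑ m ∈ S', ∑ n ∈ S', (if (g : ℝ) * m ≤ R ∧ (n : ℝ) ≤ 2 * Y then (L : ℝ) / Δ + 4 else 0) ≤
      (R / g) * (2 * Y) * ((L : ℝ) / Δ + 4) := by
    rw [← sum_product', ← sum_filter, sum_const, nsmul_eq_mul]
    apply mul_le_mul_of_nonneg_right _ hB0
    have h1 : ((S' ×ˢ S').filter (fun x : ℕ × ℕ => (g : ℝ) * x.1 ≤ R ∧ (x.2 : ℝ) ≤ 2 * Y)).card ≤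
        (Icc 1 ⌊R / g⌋₊ ×ˢ Icc 1 ⌊2 * Y⌋₊).card := by
      apply card_le_card
      rintro ⟨m, n⟩ hx
      rw [mem_filter, mem_product] at hx
      rw [mem_product, mem_Icc, mem_Icc]
      refine ⟨⟨(hmemS m hx.1.1).1, ?_⟩, (hmemS n hx.1.2).1, Nat.le_floor hx.2.2⟩
      apply Nat.le_floor
      rw [le_div_iff₀ hgR, mul_comm]
      exact hx.2.1
    rw [card_product, Nat.card_Icc, Nat.card_Icc, Nat.add_sub_cancel, Nat.add_sub_cancel] at h1
    have h2 : (((S' ×ˢ S').filter (fun x : ℕ × ℕ => (g : ℝ) * x.1 ≤ R ∧ (x.2 : ℝ) ≤ 2 * Y)).card : ℝ) ≤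
      (⌊R / g⌋₊ : ℝ) * (⌊2 * Y⌋₊ : ℝ) := by exact_mod_cast h1
    refine h2.trans ?_
    apply mul_le_mul (Nat.floor_le (by positivity)) (Nat.floor_le (by linarith)) (Nat.cast_nonneg _) (by positivity)
  have hfin : |Eg k l c L Δ (SS k R Y P0 P1) Y g - ∑ i ∈ range (K + 1), Mi k l c L Δ R Y P0 P1 g i| ≤
      (R / g) * (2 * Y) * ((L : ℝ) / Δ + 4) := by
    rw [hdiff]
    refine (abs_sum_le_sum_abs _ _).trans (le_trans ?_ hcard)
    apply sum_le_sum
    intro m hm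
    refine (abs_sum_le_sum_abs _ _).trans ?_
    apply sum_le_sum
    intro n hn
    exact hF2 m hm n hn
  have hY0 : (R / g) * (2 * Y) * ((L : ℝ) / Δ + 4) = 2 * ((L : ℝ) / Δ + 4) * (R ^ 2 / (g * G0)) := by
    rw [← hYdef]
    field_simp
  have hpos : 0 ≤ ((L : ℝ) / Δ + 4) * (R ^ 2 / (g * G0)) := by positivity
  calc |Eg k l c L Δ (SS k R Y P0 P1) Y g| = |(∑ i ∈ range (K + 1), Mi k l c L Δ R Y P0 P1 g i) +
        (Eg k l c L Δ (SS k R Y P0 P1) Y g - ∑ i ∈ range (K + 1), Mi k l c L Δ R Y P0 P1 g i)| := by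
        congr 1
        ring
    _ ≤ |∑ i ∈ range (K + 1), Mi k l c L Δ R Y P0 P1 g i| +
        |Eg k l c L Δ (SS k R Y P0 P1) Y g - ∑ i ∈ range (K + 1), Mi k l c L Δ R Y P0 P1 g i| := abs_add_le _ _
    _ ≤ ∑ i ∈ range (K + 1), |Mi k l c L Δ R Y P0 P1 g i| + (R / g) * (2 * Y) * ((L : ℝ) / Δ + 4) :=
        add_le_add (abs_sum_le_sum_abs _ _) hfin
    _ ≤ _ := by
        rw [hY0]
        linarith

end Pool.Agent.P8H78.KV
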